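import Mathlib
import Pool.Agent.H55.GBDefs
import Pool.Agent.H55.GBTransfer

set_option autoImplicit false

/-!
# `GBU_R` + Global Choice is conservative over `ZFCU_R`
-/

namespace Pool.Agent.Results.MP_befa16_lc.Conservative

open Pool.Agent.H55.GB

/-- Every countable model of `ZFCU_R` is the first-order part of a model of `GBU_R` + Global Choice; and a
first-order sentence holds in all models of `GBU_R` + Global Choice iff it holds in all models of `ZFCU_R`. -/
theorem result :
    (∀ (M : Type) (E : M → M → Prop) (A : M → Prop), Countable M → ZFCU E A →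
      ∃ (C : Type) (X : C → Set M), GBUGC E A X) ∧
    ∀ φ : (Lang Empty).Sentence,
      (∀ (M C : Type) (E : M → M → Prop) (A : M → Prop) (X : C → Set M), GBUGC E A X → Holds E A φ) ↔
        ∀ (M : Type) (E : M → M → Prop) (A : M → Prop), ZFCU E A → Holds E A φ := by
  refine ⟨fun M E A hM h => Pool.Agent.H55.ZFU.countable_expansion h, fun φ => ⟨fun h M E A hM => ?_, ?_⟩⟩
  · exact Pool.Agent.H55.ZFU.conservative φ h M E A hM
  · intro h M C E A X hX
    exact h M E A (Pool.Agent.H55.ZFU.toZFCU hX)

end Pool.Agent.Results.MP_befa16_lc.Conservative
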